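import Pool.Agent.R283.PT.Short

/-!
# Vanishing Berezin transform implies compactness for polyanalytic Toeplitz operators
-/

set_option autoImplicit false

open MeasureTheory Complex Set Metric Filter Topology
open scoped ComplexConjugate ENNReal InnerProductSpace
open Pool.Agent.R283.PT

namespace Pool.Agent.Results.MP_f074b0_an.CompactToeplitz

/-- For every order `n ≥ 1`: the polyanalytic Bergman space is closed, it has a reproducing
kernel `K`, every bounded measurable `f` has a Toeplitz operator `T`, and if the Berezin transform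
of `T` tends to `0` as `|z| → 1⁻`, then `T` is a compact operator. -/
theorem result (n : ℕ) (hn : 1 ≤ n) :
    IsClosed (PolyBergman n : Set L2) ∧ (∃ K, IsRepKernel n K) ∧
    ∀ f : ℂ → ℂ, Measurable f → (∃ M : ℝ, ∀ z, ‖f z‖ ≤ M) → (∃ T, IsToeplitz n f T) ∧
      ∀ K, IsRepKernel n K → ∀ T, IsToeplitz n f T →
        Tendsto (Berezin K T) (comap (fun z : ℂ => ‖z‖) (𝓝[<] 1)) (𝓝 0) →
        IsCompactOperator T := by
  obtain ⟨N, rfl⟩ : ∃ N, n = N + 1 := ⟨n - 1, by omega⟩
  refine ⟨isClosed_A2 N, ⟨kA N, isKernel_kA N⟩, fun f hf hM => ?_⟩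
  obtain ⟨M, hM⟩ := hM
  refine ⟨⟨toeplitz N (toI f hf hM), toeplitz_isToeplitz N f hf hM⟩, fun K hK T hT hB => ?_⟩
  have hTe : T = toeplitz N (toI f hf hM) :=
    hT.unique hf hM (toeplitz_isToeplitz N f hf hM)
  have hB' : Tendsto (fun z => berezin (kA N) (toeplitz N (toI f hf hM)) z)
      (comap (fun z : ℂ => ‖z‖) (𝓝[<] 1)) (𝓝 0) := by
    refine hB.congr' ?_
    filter_upwards [bd_lt] with z hz
    have hKz : K z = kA N z := IsKernel.eq hK hz
    unfold Berezin
    rw [hKz, hTe]
    rfl
  rw [hTe]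
  exact compact_of_II (toI f hf hM) (II_tendsto (Lp.stronglyMeasurable _).measurable
    (norm_le_ae _) bd_lt (fun ω hω => Ph_tendsto _ hB' hω))

end Pool.Agent.Results.MP_f074b0_an.CompactToeplitz
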